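import Pool.Agent.Run7.h492.UT.Lip

/-!
# The contact set has positive measure
-/

set_option autoImplicit false

open MeasureTheory Set Metric Filter Topology

namespace Pool.Agent.Run7.h492.UT

variable {n : ℕ}

/-- sub-mean value property (for continuous majorants) in the ball `closedBall z₀ r` -/
def SM (v : Cn n → ℝ) (z₀ : Cn n) (r : ℝ) : Prop :=
  ∀ x ∈ closedBall z₀ (r / 2), ∀ s : ℝ, 0 < s → s ≤ r / 2 → ∀ h : Cn n → ℝ, Continuous h →
    (∀ w ∈ closedBall x s, v w ≤ h w) → v x * (mu n).real (ball x s) ≤ ∫ w in ball x s, h w ∂(mu n)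

/-- contact pairs -/
def pairs (v : Cn n → ℝ) (z₀ : Cn n) (r C a : ℝ) : Set (Cn n × Cn n) :=
  {p | p ∈ closedBall z₀ (r / 2) ×ˢ closedBall z₀ (r / 4) ∧ a ≤ v p.1 ∧
    ∀ w ∈ closedBall z₀ r, v w ≤ PP C (v p.1) p.1 p.2 w}

/-- contact points -/
def contact (v : Cn n → ℝ) (z₀ : Cn n) (r C a : ℝ) : Set (Cn n) := Prod.fst '' pairs v z₀ r C a

lemma isCompact_pairs {v : Cn n → ℝ} {z₀ : Cn n} {r : ℝ} (hr : 0 ≤ r) (C a : ℝ)
    (hv : UpperSemicontinuousOn v (closedBall z₀ r)) : IsCompact (pairs v z₀ r C a) := by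
  set T : Set (Cn n × Cn n) := closedBall z₀ (r / 2) ×ˢ closedBall z₀ (r / 4) with hT
  have hTc : IsCompact T := (isCompact_closedBall _ _).prod (isCompact_closedBall _ _)
  have key : ∀ g : Cn n × Cn n → ℝ, Continuous g → IsClosed {p | p ∈ T ∧ g p ≤ v p.1} := by
    intro g hg
    have h1 : UpperSemicontinuousOn (fun p : Cn n × Cn n => v p.1) T := by
      intro p hp y hy
      have hp1 : p.1 ∈ closedBall z₀ r := closedBall_subset_closedBall (by linarith) hp.1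
      have h2 := hv p.1 hp1 y hy
      have hmt : Tendsto (fun q : Cn n × Cn n => q.1) (𝓝[T] p) (𝓝[closedBall z₀ r] p.1) := by
        apply tendsto_nhdsWithin_of_tendsto_nhds_of_eventually_within
        · exact continuous_fst.continuousAt.tendsto.mono_left nhdsWithin_le_nhds
        · filter_upwards [self_mem_nhdsWithin] with q hq
          exact closedBall_subset_closedBall (by linarith) hq.1
      exact hmt.eventually h2
    have h3 : UpperSemicontinuousOn (fun p : Cn n × Cn n => v p.1 + (- g p)) T :=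
      h1.add (hg.neg.upperSemicontinuous.upperSemicontinuousOn T)
    obtain ⟨c, hc, hc2⟩ := (upperSemicontinuousOn_iff_preimage_Ici.1 h3) 0
    have : {p | p ∈ T ∧ g p ≤ v p.1} = T ∩ c := by
      rw [← hc2]
      ext p
      simp only [Set.mem_ofPred_eq, mem_inter_iff, mem_preimage, mem_Ici]
      constructor
      · rintro ⟨h, h'⟩; exact ⟨h, by linarith⟩
      · rintro ⟨h, h'⟩; exact ⟨h, by linarith⟩
    rw [this]
    exact hTc.isClosed.inter hc
  have e : pairs v z₀ r C a = T ∩ ({p | p ∈ T ∧ a ≤ v p.1} ∩ ⋂ w ∈ closedBall z₀ r,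
      {p | p ∈ T ∧ v w - C / 2 * (‖w - p.2‖ ^ 2 - ‖p.1 - p.2‖ ^ 2) ≤ v p.1}) := by
    ext p
    simp only [pairs, PP, Set.mem_ofPred_eq, mem_inter_iff, mem_iInter]
    constructor
    · rintro ⟨h1, h2, h3⟩
      exact ⟨h1, ⟨h1, h2⟩, fun w hw => ⟨h1, by linarith [h3 w hw]⟩⟩
    · rintro ⟨h1, ⟨_, h2⟩, h3⟩
      exact ⟨h1, h2, fun w hw => by linarith [(h3 w hw).2]⟩
  rw [e]
  apply hTc.inter_right
  apply IsClosed.inter (key (fun _ => a) continuous_const)
  apply isClosed_biInter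
  intro w _
  exact key (fun p => v w - C / 2 * (‖w - p.2‖ ^ 2 - ‖p.1 - p.2‖ ^ 2)) (by fun_prop)

lemma isCompact_contact {v : Cn n → ℝ} {z₀ : Cn n} {r : ℝ} (hr : 0 ≤ r) (C a : ℝ)
    (hv : UpperSemicontinuousOn v (closedBall z₀ r)) : IsCompact (contact v z₀ r C a) :=
  (isCompact_pairs hr C a hv).image continuous_fst

/-- centres of contact pairs -/
lemma lip_pairs {v : Cn n → ℝ} {z₀ : Cn n} {r C a : ℝ} (hr : 0 < r) (hC : 0 < C)
    (hsm : SM v z₀ r) {p q : Cn n × Cn n} (hp : p ∈ pairs v z₀ r C a) (hq : q ∈ pairs v z₀ r C a) :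
    ‖p.2 - q.2‖ ≤ 16 * 8 ^ (dd n) * ‖p.1 - q.1‖ := by
  obtain ⟨⟨hp1, hp2⟩, hpa, hpw⟩ := hp
  obtain ⟨⟨hq1, hq2⟩, hqa, hqw⟩ := hq
  have main : ∀ ρ : ℝ, 0 < ρ → ‖p.1 - q.1‖ ≤ ρ → ‖p.2 - q.2‖ ≤ 16 * 8 ^ (dd n) * ρ := by
    intro ρ hρ hpq
    rcases le_or_gt ρ (r / 4) with hs | hs
    · have hx : ∀ x, x = p.1 ∨ x = q.1 → x ∈ closedBall z₀ (r / 2) := by
        rintro x (rfl | rfl)
        · exact hp1
        · exact hq1
      have hsub : ∀ x, x = p.1 ∨ x = q.1 → closedBall x (2 * ρ) ⊆ closedBall z₀ r := by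
        intro x hx' w hw
        have h1 := hx x hx'
        rw [mem_closedBall] at *
        calc dist w z₀ ≤ dist w x + dist x z₀ := dist_triangle _ _ _
          _ ≤ 2 * ρ + r / 2 := add_le_add hw h1
          _ ≤ r := by linarith
      exact lip_close hC hρ hpq
        (fun x hx' h hh hm => hsm x (hx x hx') (2 * ρ) (by positivity) (by linarith) h hh hm)
        (fun x hx' w hw => hpw w (hsub x hx' hw)) (fun x hx' w hw => hqw w (hsub x hx' hw))
    · have h1 : ‖p.2 - q.2‖ ≤ r / 2 := by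
        rw [mem_closedBall, dist_eq_norm] at hp2 hq2
        calc ‖p.2 - q.2‖ = ‖(p.2 - z₀) - (q.2 - z₀)‖ := by congr 1; abel
          _ ≤ ‖p.2 - z₀‖ + ‖q.2 - z₀‖ := norm_sub_le _ _
          _ ≤ r / 2 := by linarith
      have h8 : (1 : ℝ) ≤ 8 ^ (dd n) := one_le_pow₀ (by norm_num)
      nlinarith
  rcases eq_or_ne p.1 q.1 with he | he
  · rw [he, sub_self, norm_zero, mul_zero]
    apply le_of_forall_pos_le_add
    intro ε hε
    have h8 : (0 : ℝ) < 16 * 8 ^ (dd n) := by positivity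
    have := main (ε / (16 * 8 ^ (dd n))) (by positivity) (by rw [he, sub_self, norm_zero]; positivity)
    rw [mul_div_cancel₀ _ h8.ne'] at this
    linarith
  · exact main _ (norm_pos_iff.2 (sub_ne_zero.2 he)) le_rfl

/-- the Lipschitz constant -/
noncomputable def LL (n : ℕ) : NNReal := 16 * 8 ^ (dd n)

lemma exists_contact {v : Cn n → ℝ} {z₀ : Cn n} {r C a S : ℝ} (hr : 0 < r) (hC : 0 < C)
    (hv : UpperSemicontinuousOn v (closedBall z₀ r)) (hS : ∀ w ∈ closedBall z₀ r, v w ≤ S)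
    (hCS : S - a < C * r ^ 2 / 32) {y : Cn n} (hy : y ∈ closedBall z₀ (r / 4)) (hya : a ≤ v y) :
    ∃ x, (x, y) ∈ pairs v z₀ r C a := by
  have h1 : UpperSemicontinuousOn (fun w => v w + (- (C / 2 * ‖w - y‖ ^ 2))) (closedBall z₀ r) := by
    apply hv.add
    exact (show Continuous (fun w : Cn n => -(C / 2 * ‖w - y‖ ^ 2)) by
      fun_prop).upperSemicontinuous.upperSemicontinuousOn _
  have hyr : y ∈ closedBall z₀ r := closedBall_subset_closedBall (by linarith) hy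
  obtain ⟨x, hx, hmax⟩ := h1.exists_isMaxOn ⟨y, hyr⟩ (isCompact_closedBall z₀ r)
  have hm : ∀ w ∈ closedBall z₀ r, v w + (- (C / 2 * ‖w - y‖ ^ 2)) ≤ v x + (- (C / 2 * ‖x - y‖ ^ 2)) :=
    fun w hw => hmax hw
  have h2 := hm y hyr
  rw [sub_self, norm_zero] at h2
  have h3 := hS x hx
  have h4 : ‖x - y‖ < r / 4 := by
    by_contra hcon
    push Not at hcon
    have : (r / 4) ^ 2 ≤ ‖x - y‖ ^ 2 := by gcongr
    nlinarith
  refine ⟨x, ⟨⟨?_, hy⟩, ?_, ?_⟩⟩
  · rw [mem_closedBall, dist_eq_norm] at hy ⊢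
    calc ‖x - z₀‖ = ‖(x - y) + (y - z₀)‖ := by congr 1; abel
      _ ≤ ‖x - y‖ + ‖y - z₀‖ := norm_add_le _ _
      _ ≤ r / 2 := by linarith
  · show a ≤ v x
    have : 0 ≤ C / 2 * ‖x - y‖ ^ 2 := by positivity
    nlinarith
  · intro w hw
    have := hm w hw
    unfold PP
    simp only
    linarith

/-- **The contact set is large.** -/
theorem contact_large {v : Cn n → ℝ} {z₀ : Cn n} {r C a S : ℝ} (hr : 0 < r) (hC : 0 < C)
    (hv : UpperSemicontinuousOn v (closedBall z₀ r)) (hS : ∀ w ∈ closedBall z₀ r, v w ≤ S)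
    (hsm : SM v z₀ r) (hCS : S - a < C * r ^ 2 / 32) :
    mu n {y | y ∈ closedBall z₀ (r / 4) ∧ a ≤ v y} ≤ (LL n : ENNReal) ^ (dd n : ℝ) *
      mu n (contact v z₀ r C a) := by
  classical
  have hch : ∀ x ∈ contact v z₀ r C a, ∃ y, (x, y) ∈ pairs v z₀ r C a := by
    rintro x ⟨p, hp, rfl⟩
    exact ⟨p.2, hp⟩
  choose! f hf using hch
  have hlip : LipschitzOnWith (LL n) f (contact v z₀ r C a) := by
    apply LipschitzOnWith.of_dist_le_mul
    intro x hx x' hx'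
    rw [dist_eq_norm, dist_eq_norm]
    have := lip_pairs hr hC hsm (hf x hx) (hf x' hx')
    simpa [LL] using this
  have hsub : {y | y ∈ closedBall z₀ (r / 4) ∧ a ≤ v y} ⊆ f '' contact v z₀ r C a := by
    rintro y ⟨hy, hya⟩
    obtain ⟨x, hx⟩ := exists_contact hr hC hv hS hCS hy hya
    have hxc : x ∈ contact v z₀ r C a := ⟨(x, y), hx, rfl⟩
    refine ⟨x, hxc, ?_⟩
    have := lip_pairs hr hC hsm (hf x hxc) hx
    simp only [sub_self, norm_zero, mul_zero] at this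
    exact sub_eq_zero.1 (norm_le_zero_iff.1 this)
  calc mu n {y | y ∈ closedBall z₀ (r / 4) ∧ a ≤ v y} ≤ mu n (f '' contact v z₀ r C a) :=
        measure_mono hsub
    _ ≤ _ := hlip.hausdorffMeasure_image_le (by positivity)

end Pool.Agent.Run7.h492.UT
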