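import Pool.Agent.Run7.h492.UT.Mean

/-!
# The exceptional set of a plurisubharmonic function is a null set
-/

set_option autoImplicit false

open MeasureTheory Set Metric Filter Topology

namespace Pool.Agent.Run7.h492.UT

variable {n : ℕ}

/-- A differential test from above for φ at z: a function q of class C^2 on an open neighbourhood
V ⊆ Ω of z with (φ - q)(z) = sup over V of (φ - q). -/
def HasUpperTest {n : ℕ} (Ω : Set (Cn n)) (φ : Cn n → EReal) (z : Cn n) : Prop :=
  ∃ (V : Set (Cn n)) (q : Cn n → ℝ), IsOpen V ∧ V ⊆ Ω ∧ z ∈ V ∧ ContDiffOn ℝ 2 q V ∧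
    ∀ y ∈ V, φ y - (q y : EReal) ≤ φ z - (q z : EReal)

/-- The exceptional set E(φ). -/
def exceptional {n : ℕ} (Ω : Set (Cn n)) (φ : Cn n → EReal) : Set (Cn n) :=
  {z | z ∈ Ω ∧ ¬ HasUpperTest Ω φ z}

lemma contDiff_PP (C c : ℝ) (x y : Cn n) : ContDiff ℝ 2 (PP C c x y) := by
  unfold PP
  have h : ContDiff ℝ 2 (fun w : Cn n => ‖w - y‖ ^ 2) :=
    (contDiff_id.sub contDiff_const).norm_sq ℂ
  exact contDiff_const.add (contDiff_const.mul (h.sub contDiff_const))

/-- the truncation of `φ` at level `-M` -/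
noncomputable def trunc (φ : Cn n → EReal) (M : ℝ) (w : Cn n) : ℝ := (max (φ w) ((-M : ℝ) : EReal)).toReal

lemma coe_trunc {φ : Cn n → EReal} {M : ℝ} {w : Cn n} (h : φ w ≠ ⊤) :
    (trunc φ M w : EReal) = max (φ w) ((-M : ℝ) : EReal) := by
  unfold trunc
  apply EReal.coe_toReal
  · intro h'
    rcases max_choice (φ w) ((-M : ℝ) : EReal) with h1 | h1
    · rw [h1] at h'; exact h h'
    · rw [h1] at h'; exact EReal.coe_ne_top _ h'
  · intro h'
    have : ((-M : ℝ) : EReal) ≤ ⊥ := by rw [← h']; exact le_max_right _ _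
    exact EReal.coe_ne_bot _ (le_bot_iff.1 this)

lemma trunc_usc {Ω : Set (Cn n)} {φ : Cn n → EReal} (hφ : IsPSH Ω φ) (M : ℝ) :
    UpperSemicontinuousOn (trunc φ M) Ω := by
  intro x hx y hy
  have h1 : max (φ x) ((-M : ℝ) : EReal) < (y : EReal) := by
    rw [← coe_trunc (hφ.1 x hx), EReal.coe_lt_coe_iff]; exact hy
  rw [max_lt_iff] at h1
  filter_upwards [hφ.2.1 x hx y h1.1, self_mem_nhdsWithin] with w hw hwΩ
  rw [← EReal.coe_lt_coe_iff, coe_trunc (hφ.1 w hwΩ), max_lt_iff]
  exact ⟨hw, h1.2⟩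

lemma trunc_SM {Ω : Set (Cn n)} {φ : Cn n → EReal} (hφ : IsPSH Ω φ) (M : ℝ) {z₀ : Cn n} {r : ℝ}
    (hsub : closedBall z₀ r ⊆ Ω) : SM (trunc φ M) z₀ r := by
  intro x hx s hs hsr h hh hm
  have hsub' : closedBall x s ⊆ Ω := by
    refine Subset.trans ?_ hsub
    apply closedBall_subset_closedBall'
    rw [mem_closedBall] at hx
    linarith
  have hxΩ : x ∈ Ω := hsub' (mem_closedBall_self hs.le)
  have hc := coe_trunc (M := M) (hφ.1 x hxΩ)
  have hmφ : ∀ w ∈ closedBall x s, φ w ≤ (h w : EReal) := by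
    intro w hw
    have h1 : (trunc φ M w : EReal) ≤ h w := EReal.coe_le_coe_iff.2 (hm w hw)
    rw [coe_trunc (hφ.1 w (hsub' hw))] at h1
    exact (le_max_left _ _).trans h1
  have hmM : ∀ w ∈ closedBall x s, -M ≤ h w := by
    intro w hw
    have h1 : (trunc φ M w : EReal) ≤ h w := EReal.coe_le_coe_iff.2 (hm w hw)
    rw [coe_trunc (hφ.1 w (hsub' hw))] at h1
    exact EReal.coe_le_coe_iff.1 ((le_max_right _ _).trans h1)
  rcases le_total ((-M : ℝ) : EReal) (φ x) with h1 | h1
  · rw [max_eq_left h1] at hc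
    exact mean_ball hφ hs hsub' hc.le hh hmφ
  · rw [max_eq_right h1, EReal.coe_eq_coe_iff] at hc
    rw [hc, mul_comm, ← smul_eq_mul, ← setIntegral_const]
    apply setIntegral_mono_on (ball_int continuous_const x s) (ball_int hh x s) measurableSet_ball
    intro w hw
    exact hmM w (ball_subset_closedBall hw)

/-- a compact set of points with upper tests, of proportionate measure -/
lemma exists_good {Ω : Set (Cn n)} {φ : Cn n → EReal} (hφ : IsPSH Ω φ) {z₀ : Cn n} {r : ℝ}
    (hr : 0 < r) (hsub : closedBall z₀ r ⊆ Ω)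
    (hnull : mu n (closedBall z₀ (r / 4) ∩ {w | w ∈ Ω ∧ φ w = ⊥}) = 0) :
    ∃ K : Set (Cn n), IsCompact K ∧ K ⊆ closedBall z₀ (r / 2) ∧ (∀ x ∈ K, HasUpperTest Ω φ x) ∧
      mu n (closedBall z₀ (r / 4)) ≤ 2 * ((LL n : ENNReal) ^ (dd n : ℝ) * mu n K) := by
  set B := closedBall z₀ (r / 4) with hB
  have hBfin : mu n B ≠ ⊤ := (isCompact_closedBall _ _).measure_lt_top.ne
  have hBpos : 0 < mu n B := measure_closedBall_pos _ _ (by positivity)
  have hBΩ : B ⊆ Ω := (closedBall_subset_closedBall (by linarith)).trans hsub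
  set A : ℕ → Set (Cn n) := fun k => {y | y ∈ B ∧ ((-(k : ℝ) : ℝ) : EReal) ≤ φ y} with hA
  have hAmono : Monotone A := by
    intro k l hkl y hy
    refine ⟨hy.1, le_trans ?_ hy.2⟩
    rw [EReal.coe_le_coe_iff]
    have : (k : ℝ) ≤ l := by exact_mod_cast hkl
    linarith
  obtain ⟨k, hk⟩ : ∃ k, mu n B ≤ 2 * mu n (A k) := by
    by_contra hcon
    push Not at hcon
    have h1 : mu n (⋃ k, A k) ≤ mu n B / 2 := by
      rw [hAmono.measure_iUnion]
      apply iSup_le
      intro k
      rw [ENNReal.le_div_iff_mul_le (by simp) (by simp), mul_comm]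
      exact (hcon k).le
    have h2 : B ⊆ (⋃ k, A k) ∪ (B ∩ {w | w ∈ Ω ∧ φ w = ⊥}) := by
      intro y hy
      by_cases hyb : φ y = ⊥
      · exact Or.inr ⟨hy, hBΩ hy, hyb⟩
      · left
        obtain ⟨k, hk⟩ := exists_nat_ge (-(φ y).toReal)
        refine mem_iUnion.2 ⟨k, hy, ?_⟩
        rw [← EReal.coe_toReal (hφ.1 y (hBΩ hy)) hyb, EReal.coe_le_coe_iff]
        linarith
    have h3 : mu n B ≤ mu n B / 2 := by
      calc mu n B ≤ mu n ((⋃ k, A k) ∪ (B ∩ {w | w ∈ Ω ∧ φ w = ⊥})) := measure_mono h2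
        _ ≤ mu n (⋃ k, A k) + mu n (B ∩ {w | w ∈ Ω ∧ φ w = ⊥}) := measure_union_le _ _
        _ ≤ mu n B / 2 + 0 := add_le_add h1 hnull.le
        _ = mu n B / 2 := add_zero _
    exact absurd h3 (not_le.2 (ENNReal.half_lt_self hBpos.ne' hBfin))
  obtain ⟨S, hS⟩ := bdd_ball hφ hr hsub
  set M : ℝ := k + 1 with hM
  set a : ℝ := -(k : ℝ) with ha
  set v := trunc φ M with hv
  set S' := max S (-M) with hS'
  set C := 32 * (|S' - a| + 1) / r ^ 2 with hC
  have hC0 : 0 < C := by positivity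
  have hvS : ∀ w ∈ closedBall z₀ r, v w ≤ S' := by
    intro w hw
    rw [← EReal.coe_le_coe_iff, coe_trunc (hφ.1 w (hsub hw))]
    apply max_le
    · exact (hS w hw).trans (EReal.coe_le_coe_iff.2 (le_max_left _ _))
    · exact EReal.coe_le_coe_iff.2 (le_max_right _ _)
  have hCS : S' - a < C * r ^ 2 / 32 := by
    have : C * r ^ 2 / 32 = |S' - a| + 1 := by rw [hC]; field_simp
    rw [this]
    linarith [le_abs_self (S' - a)]
  have husc : UpperSemicontinuousOn v (closedBall z₀ r) := (trunc_usc hφ M).mono hsub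
  have hlarge := contact_large hr hC0 husc hvS (trunc_SM hφ M hsub) hCS
  refine ⟨contact v z₀ r C a, isCompact_contact hr.le C a husc, ?_, ?_, ?_⟩
  · rintro x ⟨p, hp, rfl⟩
    exact hp.1.1
  · rintro x ⟨⟨x', y⟩, ⟨⟨hx1, hx2⟩, hxa, hxw⟩, rfl⟩
    simp only at hx1 hx2 hxa hxw ⊢
    have hxr : x' ∈ ball z₀ r := by
      rw [mem_ball]; rw [mem_closedBall] at hx1; linarith
    have hxΩ : x' ∈ Ω := hsub (ball_subset_closedBall hxr)
    have hφx : φ x' = (v x' : EReal) := by
      have h1 := coe_trunc (M := M) (hφ.1 x' hxΩ)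
      rcases max_choice (φ x') ((-M : ℝ) : EReal) with h2 | h2
      · rw [h2] at h1; exact h1.symm
      · rw [h2, EReal.coe_eq_coe_iff] at h1
        exfalso
        rw [← hv] at h1
        rw [h1, ha, hM] at hxa
        linarith
    refine ⟨ball z₀ r, PP C (v x') x' y, isOpen_ball, ball_subset_closedBall.trans hsub, hxr,
      (contDiff_PP _ _ _ _).contDiffOn, ?_⟩
    intro w hw
    have hwΩ : w ∈ Ω := hsub (ball_subset_closedBall hw)
    rw [hφx, PP_self]
    have h1 : φ w ≤ (v w : EReal) := by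
      rw [coe_trunc (hφ.1 w hwΩ)]; exact le_max_left _ _
    calc φ w - (PP C (v x') x' y w : EReal) ≤ (v w : EReal) - (PP C (v x') x' y w : EReal) :=
          EReal.sub_le_sub h1 le_rfl
      _ = ((v w - PP C (v x') x' y w : ℝ) : EReal) := (EReal.coe_sub _ _).symm
      _ ≤ ((v x' - v x' : ℝ) : EReal) := by
          rw [EReal.coe_le_coe_iff]
          linarith [hxw w (ball_subset_closedBall hw)]
      _ = (v x' : EReal) - (v x' : EReal) := EReal.coe_sub _ _
  · refine hk.trans ?_
    gcongr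
    refine le_trans (measure_mono ?_) hlarge
    rintro y ⟨hy1, hy2⟩
    refine ⟨hy1, ?_⟩
    rw [← EReal.coe_le_coe_iff, coe_trunc (hφ.1 y (hBΩ hy1))]
    exact hy2.trans (le_max_left _ _)

/-- near every point of `Ω` either `φ = -∞` or `{φ = -∞}` is a null set -/
lemma bot_or_null {Ω : Set (Cn n)} (hΩ : IsOpen Ω) {φ : Cn n → EReal} (hφ : IsPSH Ω φ) {x : Cn n}
    (hx : x ∈ Ω) : ∃ ε > 0, closedBall x ε ⊆ Ω ∧ ((∀ w ∈ closedBall x ε, φ w = ⊥) ∨
      mu n (closedBall x ε ∩ {w | w ∈ Ω ∧ φ w = ⊥}) = 0) := by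
  obtain ⟨ρ, hρ, hρs⟩ := Metric.isOpen_iff.1 hΩ x hx
  refine ⟨ρ / 8, by positivity, (closedBall_subset_ball (by linarith)).trans hρs, ?_⟩
  by_cases hcase : ∀ w ∈ closedBall x (ρ / 8), φ w = ⊥
  · exact Or.inl hcase
  right
  push Not at hcase
  obtain ⟨a, ha, hab⟩ := hcase
  have hsub : closedBall a (ρ / 2) ⊆ Ω := by
    refine Subset.trans ?_ hρs
    refine (closedBall_subset_ball' (ε₂ := ρ) ?_)
    rw [mem_closedBall] at ha
    linarith
  have h0 := null_near hΩ hφ (by positivity) hsub hab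
  apply measure_mono_null _ h0
  apply inter_subset_inter_left
  apply closedBall_subset_ball'
  rw [mem_closedBall, dist_comm] at ha
  linarith

/-- **The exceptional set of a plurisubharmonic function is a null set.** -/
theorem exceptional_null {Ω : Set (Cn n)} (hΩ : IsOpen Ω) {φ : Cn n → EReal} (hφ : IsPSH Ω φ) :
    mu n (exceptional Ω φ) = 0 := by
  set E := exceptional Ω φ with hE
  have hEΩ : E ⊆ Ω := fun x hx => hx.1
  have hdens := Besicovitch.ae_tendsto_measure_inter_div (mu n) E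
  have hmem : ∀ᵐ x ∂((mu n).restrict E), x ∈ Ω :=
    ae_restrict_of_ae_restrict_of_subset hEΩ (ae_restrict_mem hΩ.measurableSet)
  have hfalse : ∀ᵐ x ∂((mu n).restrict E), False := by
    filter_upwards [hdens, hmem] with x hx hxΩ
    obtain ⟨ε, hε, hεΩ, hcase⟩ := bot_or_null hΩ hφ hxΩ
    have hev : ∀ᶠ r in 𝓝[>] (0 : ℝ), 0 < r ∧ r < ε := by
      filter_upwards [Ioo_mem_nhdsGT hε] with r hr using hr
    rcases hcase with hbot | hnull
    · -- φ = ⊥ near x
      have h0 : ∀ᶠ r in 𝓝[>] (0 : ℝ), mu n (E ∩ closedBall x r) / mu n (closedBall x r) ≤ 0 := by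
        filter_upwards [hev] with r hr
        have : E ∩ closedBall x r = ∅ := by
          rw [Set.eq_empty_iff_forall_notMem]
          rintro y ⟨⟨hy1, hy2⟩, hyr⟩
          apply hy2
          have hyε : y ∈ ball x ε := by
            rw [mem_ball]; rw [mem_closedBall] at hyr; linarith [hr.2]
          refine ⟨ball x ε, fun _ => 0, isOpen_ball, ball_subset_closedBall.trans hεΩ, hyε,
            contDiffOn_const, ?_⟩
          intro w hw
          rw [hbot w (ball_subset_closedBall hw), hbot y (ball_subset_closedBall hyε)]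
        rw [this, measure_empty, ENNReal.zero_div]
      exact absurd (le_of_tendsto hx h0) (by simp)
    · -- the general case
      set c : ENNReal := 2 * ((LL n : ENNReal) ^ (dd n : ℝ)) * 4 ^ (dd n) with hc
      have hLpos : (0 : ENNReal) < (LL n : ENNReal) ^ (dd n : ℝ) := by
        apply ENNReal.rpow_pos
        · rw [ENNReal.coe_pos]; unfold LL; positivity
        · exact ENNReal.coe_ne_top
      have hLfin : (LL n : ENNReal) ^ (dd n : ℝ) ≠ ⊤ :=
        ENNReal.rpow_ne_top_of_nonneg (by positivity) ENNReal.coe_ne_top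
      have hc0 : c ≠ 0 := by
        rw [hc]
        exact mul_ne_zero (mul_ne_zero (by simp) hLpos.ne') (pow_ne_zero _ (by simp))
      have hcfin : c ≠ ⊤ := by
        rw [hc]
        exact ENNReal.mul_ne_top (ENNReal.mul_ne_top (by simp) hLfin) (ENNReal.pow_ne_top (by simp))
      have h1 : ∀ᶠ r in 𝓝[>] (0 : ℝ), mu n (E ∩ closedBall x r) / mu n (closedBall x r) ≤ 1 - c⁻¹ := by
        filter_upwards [hev] with r hr
        have hsubr : closedBall x r ⊆ Ω := (closedBall_subset_closedBall hr.2.le).trans hεΩ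
        obtain ⟨K, hKc, hKsub, hKtest, hKm⟩ := exists_good hφ hr.1 hsubr (by
          apply measure_mono_null _ hnull
          apply inter_subset_inter_left
          apply closedBall_subset_closedBall
          linarith [hr.1, hr.2])
        have hKr : K ⊆ closedBall x r := hKsub.trans (closedBall_subset_closedBall (by linarith [hr.1]))
        have hBfin : mu n (closedBall x r) ≠ ⊤ := (isCompact_closedBall _ _).measure_lt_top.ne
        have hBpos : 0 < mu n (closedBall x r) := measure_closedBall_pos _ _ hr.1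
        have hscale : mu n (closedBall x r) = 4 ^ (dd n) * mu n (closedBall x (r / 4)) := by
          rw [Measure.addHaar_closedBall (mu n) x hr.1.le,
            Measure.addHaar_closedBall (mu n) x (by linarith [hr.1] : 0 ≤ r / 4), ← mul_assoc]
          congr 1
          unfold dd
          rw [show (4 : ENNReal) = ENNReal.ofReal 4 by simp, ← ENNReal.ofReal_pow (by norm_num),
            ← ENNReal.ofReal_mul (by positivity)]
          congr 1
          rw [div_pow]; field_simp
        have hKbig : mu n (closedBall x r) ≤ c * mu n K := by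
          rw [hscale, hc]
          calc (4 : ENNReal) ^ (dd n) * mu n (closedBall x (r / 4)) ≤
              4 ^ (dd n) * (2 * ((LL n : ENNReal) ^ (dd n : ℝ) * mu n K)) := by gcongr
            _ = 2 * (LL n : ENNReal) ^ (dd n : ℝ) * 4 ^ (dd n) * mu n K := by ring
        have hsubE : E ∩ closedBall x r ⊆ closedBall x r \ K := by
          rintro y ⟨hy1, hy2⟩
          exact ⟨hy2, fun hyK => hy1.2 (hKtest y hyK)⟩
        have h2 : mu n (E ∩ closedBall x r) ≤ mu n (closedBall x r) - mu n K :=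
          (measure_mono hsubE).trans (measure_sdiff hKr hKc.measurableSet.nullMeasurableSet
            hKc.measure_lt_top.ne).le
        rw [ENNReal.div_le_iff hBpos.ne' hBfin, ENNReal.sub_mul (fun _ _ => hBfin), one_mul]
        refine h2.trans ?_
        apply tsub_le_tsub_left
        rw [← ENNReal.div_eq_inv_mul, ENNReal.div_le_iff hc0 hcfin, mul_comm]
        exact hKbig
      have h3 := le_of_tendsto hx h1
      have h4 : (1 : ENNReal) - c⁻¹ < 1 :=
        ENNReal.sub_lt_self (by simp) (by simp) (ENNReal.inv_ne_zero.2 hcfin)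
      exact absurd h3 (not_le.2 h4)
  rw [← Measure.restrict_eq_zero]
  rw [ae_iff] at hfalse
  simpa using hfalse

end Pool.Agent.Run7.h492.UT
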