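import Mathlib

/-!
# Points where a function with the sub-mean value property is touched from above by a quadratic polynomial

Two such points: the centres of the quadratic polynomials are a Lipschitz function of the contact point.
-/

set_option autoImplicit false

open MeasureTheory Set Metric Filter Topology

namespace Pool.Agent.Run7.h492.UT

/-- complex n-space with its Hermitian norm -/
abbrev Cn (n : ℕ) : Type := EuclideanSpace ℂ (Fin n)

/-- real dimension -/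
noncomputable def dd (n : ℕ) : ℕ := Module.finrank ℝ (Cn n)

/-- Hausdorff measure of dimension `2 n` -/
noncomputable def mu (n : ℕ) : Measure (Cn n) := Measure.hausdorffMeasure (dd n : ℝ)

variable {n : ℕ}

instance : (mu n).IsAddHaarMeasure := isAddHaarMeasure_hausdorffMeasure

instance : (mu n).IsNegInvariant :=
  ⟨(IsometryEquiv.measurePreserving_hausdorffMeasure (IsometryEquiv.neg (Cn n)) _).map_eq⟩

/-- the quadratic polynomial with second derivative `C`, centre `y` and value `c` at `x` -/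
noncomputable def PP (C c : ℝ) (x y w : Cn n) : ℝ := c + C / 2 * (‖w - y‖ ^ 2 - ‖x - y‖ ^ 2)

lemma continuous_PP (C c : ℝ) (x y : Cn n) : Continuous (PP C c x y) := by
  unfold PP; fun_prop

lemma PP_self (C c : ℝ) (x y : Cn n) : PP C c x y x = c := by unfold PP; ring

lemma ball_int {f : Cn n → ℝ} (hf : Continuous f) (x : Cn n) (s : ℝ) :
    IntegrableOn f (ball x s) (mu n) :=
  (hf.continuousOn.integrableOn_compact (isCompact_closedBall x s)).mono_set ball_subset_closedBall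

lemma real_ball_pos (x : Cn n) {s : ℝ} (hs : 0 < s) : 0 < (mu n).real (ball x s) := by
  rw [Measure.real, ENNReal.toReal_pos_iff]
  exact ⟨measure_ball_pos _ _ hs, measure_ball_lt_top⟩

lemma real_ball_mul (x y : Cn n) {r s : ℝ} (hr : 0 < r) (hs : 0 < s) :
    (mu n).real (ball x (r * s)) = r ^ (dd n) * (mu n).real (ball y s) := by
  rw [Measure.real, Measure.real, Measure.addHaar_ball_of_pos (mu n) x (by positivity : 0 < r * s),
    Measure.addHaar_ball_of_pos (mu n) y hs, ENNReal.toReal_mul, ENNReal.toReal_mul,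
    ENNReal.toReal_ofReal (by positivity), ENNReal.toReal_ofReal (by positivity)]
  unfold dd
  rw [mul_pow]; ring

lemma reflect (g : Cn n → ℝ) (x : Cn n) (s : ℝ) :
    ∫ w in ball x s, g w ∂(mu n) = ∫ w in ball x s, g (x + x - w) ∂(mu n) := by
  rw [← integral_indicator measurableSet_ball, ← integral_indicator measurableSet_ball,
    ← integral_sub_left_eq_self _ (mu n) (x + x)]
  congr 1
  funext w
  have : (x + x - w ∈ ball x s) ↔ (w ∈ ball x s) := by
    rw [mem_ball, mem_ball, dist_eq_norm, dist_eq_norm]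
    rw [show x + x - w - x = -(w - x) by abel, norm_neg]
  by_cases hw : w ∈ ball x s
  · rw [indicator_of_mem (this.2 hw), indicator_of_mem hw]
  · rw [indicator_of_notMem (fun h => hw (this.1 h)), indicator_of_notMem hw]

/-- the mean over a ball of the quadratic polynomial -/
lemma mean_quad (x y : Cn n) {s : ℝ} :
    ∫ w in ball x s, (‖w - y‖ ^ 2 - ‖x - y‖ ^ 2) ∂(mu n) ≤ s ^ 2 * (mu n).real (ball x s) := by
  have hc : Continuous (fun w : Cn n => ‖w - y‖ ^ 2 - ‖x - y‖ ^ 2) := by fun_prop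
  have hc' : Continuous (fun w : Cn n => ‖x + x - w - y‖ ^ 2 - ‖x - y‖ ^ 2) := by fun_prop
  have h1 := reflect (fun w : Cn n => ‖w - y‖ ^ 2 - ‖x - y‖ ^ 2) x s
  have h2 : ∫ w in ball x s, (‖w - y‖ ^ 2 - ‖x - y‖ ^ 2) ∂(mu n) +
      ∫ w in ball x s, (‖x + x - w - y‖ ^ 2 - ‖x - y‖ ^ 2) ∂(mu n) =
      ∫ w in ball x s, 2 * ‖w - x‖ ^ 2 ∂(mu n) := by
    rw [← integral_add (ball_int hc x s) (ball_int hc' x s)]
    congr 1
    funext w
    have := parallelogram_law_with_norm ℂ (x - y) (w - x)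
    rw [show x - y + (w - x) = w - y by abel, show x - y - (w - x) = x + x - w - y by abel] at this
    linarith
  have h3 : ∫ w in ball x s, 2 * ‖w - x‖ ^ 2 ∂(mu n) ≤ ∫ w in ball x s, 2 * s ^ 2 ∂(mu n) := by
    apply setIntegral_mono_on (ball_int (by fun_prop) x s) (ball_int continuous_const x s)
      measurableSet_ball
    intro w hw
    rw [mem_ball, dist_eq_norm] at hw
    have := norm_nonneg (w - x)
    nlinarith
  rw [setIntegral_const, smul_eq_mul] at h3
  rw [← h1] at h2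
  linarith

/-- `P_1 - P_2` is an affine function -/
lemma PP_sub (C c c' : ℝ) (x y x' y' w m : Cn n) :
    PP C c x y w - PP C c' x' y' w = (PP C c x y m - PP C c' x' y' m)
      - C * RCLike.re (inner ℂ (w - m) (y - y')) := by
  have e1 : ‖w - y‖ ^ 2 = ‖w - m‖ ^ 2 + 2 * RCLike.re (inner ℂ (w - m) (m - y)) + ‖m - y‖ ^ 2 := by
    rw [← norm_add_sq (𝕜 := ℂ)]; congr 2; abel
  have e2 : ‖w - y'‖ ^ 2 = ‖w - m‖ ^ 2 + 2 * RCLike.re (inner ℂ (w - m) (m - y')) + ‖m - y'‖ ^ 2 := by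
    rw [← norm_add_sq (𝕜 := ℂ)]; congr 2; abel
  have e3 : RCLike.re (inner ℂ (w - m) (y - y')) =
      RCLike.re (inner ℂ (w - m) (m - y')) - RCLike.re (inner ℂ (w - m) (m - y)) := by
    rw [← map_sub, ← inner_sub_right]; congr 2; abel
  unfold PP
  rw [e1, e2, e3]
  ring

/-- **The centres depend on the contact points in a Lipschitz manner** (close points). -/
lemma lip_close {v : Cn n → ℝ} {C : ℝ} (hC : 0 < C) {x₁ x₂ y₁ y₂ : Cn n} {ρ : ℝ} (hρ0 : 0 < ρ)
    (hρ : ‖x₁ - x₂‖ ≤ ρ)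
    (hsm : ∀ x, x = x₁ ∨ x = x₂ → ∀ h : Cn n → ℝ, Continuous h →
      (∀ w ∈ closedBall x (2 * ρ), v w ≤ h w) →
      v x * (mu n).real (ball x (2 * ρ)) ≤ ∫ w in ball x (2 * ρ), h w ∂(mu n))
    (h1 : ∀ x, x = x₁ ∨ x = x₂ → ∀ w ∈ closedBall x (2 * ρ), v w ≤ PP C (v x₁) x₁ y₁ w)
    (h2 : ∀ x, x = x₁ ∨ x = x₂ → ∀ w ∈ closedBall x (2 * ρ), v w ≤ PP C (v x₂) x₂ y₂ w) :
    ‖y₁ - y₂‖ ≤ 16 * 8 ^ (dd n) * ρ := by
  rcases eq_or_ne y₁ y₂ with hy | hy
  · rw [hy, sub_self, norm_zero]; positivity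
  have hy0 : 0 < ‖y₁ - y₂‖ := norm_pos_iff.2 (sub_ne_zero.2 hy)
  set P₁ := PP C (v x₁) x₁ y₁ with hP₁
  set P₂ := PP C (v x₂) x₂ y₂ with hP₂
  have hP₁c : Continuous P₁ := continuous_PP _ _ _ _
  have hP₂c : Continuous P₂ := continuous_PP _ _ _ _
  set h : Cn n → ℝ := fun w => min (P₁ w) (P₂ w) with hh
  have hhc : Continuous h := hP₁c.min hP₂c
  have hhv : ∀ x, x = x₁ ∨ x = x₂ → ∀ w ∈ closedBall x (2 * ρ), v w ≤ h w := fun x hx w hw =>
    le_min (h1 x hx w hw) (h2 x hx w hw)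
  -- the two integrals
  have key : ∀ (x y : Cn n), (x = x₁ ∨ x = x₂) →
      ∫ w in ball x (2 * ρ), (PP C (v x) x y w - h w) ∂(mu n) ≤
        2 * C * ρ ^ 2 * (mu n).real (ball x (2 * ρ)) := by
    intro x y hx
    have hs := hsm x hx h hhc (hhv x hx)
    rw [integral_sub (ball_int (continuous_PP _ _ _ _) _ _) (ball_int hhc _ _)]
    have hm := mean_quad x y (s := 2 * ρ)
    have e : ∫ w in ball x (2 * ρ), PP C (v x) x y w ∂(mu n) = v x * (mu n).real (ball x (2 * ρ)) +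
        C / 2 * ∫ w in ball x (2 * ρ), (‖w - y‖ ^ 2 - ‖x - y‖ ^ 2) ∂(mu n) := by
      unfold PP
      rw [integral_add (ball_int continuous_const _ _) (ball_int (by fun_prop) _ _),
        setIntegral_const, integral_const_mul, smul_eq_mul, mul_comm]
    rw [e]
    have : C / 2 * ∫ w in ball x (2 * ρ), (‖w - y‖ ^ 2 - ‖x - y‖ ^ 2) ∂(mu n) ≤
        C / 2 * ((2 * ρ) ^ 2 * (mu n).real (ball x (2 * ρ))) := by gcongr
    nlinarith
  -- a small ball
  set m : Cn n := (1 / 2 : ℝ) • (x₁ + x₂) with hm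
  set e : Cn n := (1 / ‖y₁ - y₂‖ : ℝ) • (y₁ - y₂) with he
  have hen : ‖e‖ = 1 := by
    rw [he, norm_smul, Real.norm_eq_abs, abs_of_pos (by positivity)]; field_simp
  have hee : RCLike.re (inner ℂ e (y₁ - y₂)) = ‖y₁ - y₂‖ := by
    rw [he]
    rw [show ((1 / ‖y₁ - y₂‖ : ℝ) • (y₁ - y₂) : Cn n) = ((1 / ‖y₁ - y₂‖ : ℝ) : ℂ) • (y₁ - y₂) from
      (Complex.coe_smul _ _).symm, inner_smul_left, Complex.conj_ofReal, RCLike.re_eq_complex_re,
      Complex.re_ofReal_mul]
    have := inner_self_eq_norm_sq (𝕜 := ℂ) (y₁ - y₂)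
    rw [RCLike.re_eq_complex_re] at this
    rw [this]; field_simp
  obtain ⟨b, hb, hbD⟩ : ∃ b : Cn n, ‖b - m‖ ≤ ρ / 2 ∧ ∀ w ∈ ball b (ρ / 4),
      C * ‖y₁ - y₂‖ * ρ / 4 ≤ |P₁ w - P₂ w| := by
    have hinner : ∀ (b w : Cn n), w ∈ ball b (ρ / 4) →
        |RCLike.re (inner ℂ (w - b) (y₁ - y₂))| ≤ ρ / 4 * ‖y₁ - y₂‖ := by
      intro b w hw
      rw [mem_ball, dist_eq_norm] at hw
      calc |RCLike.re (inner ℂ (w - b) (y₁ - y₂))| ≤ ‖inner ℂ (w - b) (y₁ - y₂)‖ :=
            RCLike.abs_re_le_norm _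
        _ ≤ ‖w - b‖ * ‖y₁ - y₂‖ := norm_inner_le_norm _ _
        _ ≤ _ := by gcongr
    rcases le_or_gt 0 (P₁ m - P₂ m) with hD | hD
    · refine ⟨m - (ρ / 2 : ℝ) • e, ?_, ?_⟩
      · rw [show m - (ρ / 2 : ℝ) • e - m = -((ρ / 2 : ℝ) • e) by abel, norm_neg, norm_smul, hen,
          Real.norm_eq_abs, abs_of_pos (by positivity), mul_one]
      · intro w hw
        have hi := hinner _ w hw
        rw [hP₁, hP₂, PP_sub C (v x₁) (v x₂) x₁ y₁ x₂ y₂ w m, ← hP₁, ← hP₂]
        have e1 : RCLike.re (inner ℂ (w - m) (y₁ - y₂)) =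
            RCLike.re (inner ℂ (w - (m - (ρ / 2 : ℝ) • e)) (y₁ - y₂)) - ρ / 2 * ‖y₁ - y₂‖ := by
          have : w - m = (w - (m - (ρ / 2 : ℝ) • e)) - (ρ / 2 : ℝ) • e := by abel
          rw [this, inner_sub_left, map_sub]
          congr 1
          · rw [← Complex.coe_smul, inner_smul_left, Complex.conj_ofReal, RCLike.re_eq_complex_re,
              Complex.re_ofReal_mul, ← RCLike.re_eq_complex_re, hee]
        rw [e1]
        have hi' := (abs_le.1 hi).2
        apply le_abs.2; left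
        nlinarith
    · refine ⟨m + (ρ / 2 : ℝ) • e, ?_, ?_⟩
      · rw [show m + (ρ / 2 : ℝ) • e - m = ((ρ / 2 : ℝ) • e) by abel, norm_smul, hen,
          Real.norm_eq_abs, abs_of_pos (by positivity), mul_one]
      · intro w hw
        have hi := hinner _ w hw
        rw [hP₁, hP₂, PP_sub C (v x₁) (v x₂) x₁ y₁ x₂ y₂ w m, ← hP₁, ← hP₂]
        have e1 : RCLike.re (inner ℂ (w - m) (y₁ - y₂)) =
            RCLike.re (inner ℂ (w - (m + (ρ / 2 : ℝ) • e)) (y₁ - y₂)) + ρ / 2 * ‖y₁ - y₂‖ := by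
          have : w - m = (w - (m + (ρ / 2 : ℝ) • e)) + (ρ / 2 : ℝ) • e := by abel
          rw [this, inner_add_left, map_add]
          congr 1
          · rw [← Complex.coe_smul, inner_smul_left, Complex.conj_ofReal, RCLike.re_eq_complex_re,
              Complex.re_ofReal_mul, ← RCLike.re_eq_complex_re, hee]
        rw [e1]
        have hi' := (abs_le.1 hi).1
        apply le_abs.2; right
        nlinarith
  have hsub : ∀ x, x = x₁ ∨ x = x₂ → ball b (ρ / 4) ⊆ ball x (2 * ρ) := by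
    intro x hx w hw
    rw [mem_ball, dist_eq_norm] at hw ⊢
    have hxm : ‖m - x‖ ≤ ρ / 2 := by
      rcases hx with rfl | rfl
      · rw [hm, show (1 / 2 : ℝ) • (x + x₂) - x = -((1 / 2 : ℝ) • (x - x₂)) by module, norm_neg,
          norm_smul, Real.norm_eq_abs, abs_of_pos (by norm_num)]
        linarith
      · rw [hm, show (1 / 2 : ℝ) • (x₁ + x) - x = ((1 / 2 : ℝ) • (x₁ - x)) by module,
          norm_smul, Real.norm_eq_abs, abs_of_pos (by norm_num)]
        linarith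
    calc ‖w - x‖ = ‖(w - b) + (b - m) + (m - x)‖ := by congr 1; abel
      _ ≤ ‖w - b‖ + ‖b - m‖ + ‖m - x‖ := norm_add₃_le
      _ < 2 * ρ := by linarith
  -- lower bound
  have low : C * ‖y₁ - y₂‖ * ρ / 4 * (mu n).real (ball b (ρ / 4)) ≤
      ∫ w in ball b (ρ / 4), |P₁ w - P₂ w| ∂(mu n) := by
    have : ∫ w in ball b (ρ / 4), C * ‖y₁ - y₂‖ * ρ / 4 ∂(mu n) ≤
        ∫ w in ball b (ρ / 4), |P₁ w - P₂ w| ∂(mu n) :=
      setIntegral_mono_on (ball_int continuous_const _ _) (ball_int (by fun_prop) _ _)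
        measurableSet_ball hbD
    rw [setIntegral_const, smul_eq_mul] at this
    linarith
  have up : ∫ w in ball b (ρ / 4), |P₁ w - P₂ w| ∂(mu n) ≤
      ∫ w in ball b (ρ / 4), (P₁ w - h w) ∂(mu n) + ∫ w in ball b (ρ / 4), (P₂ w - h w) ∂(mu n) := by
    rw [← integral_add (ball_int (f := fun w => P₁ w - h w) (by fun_prop) _ _)
      (ball_int (f := fun w => P₂ w - h w) (by fun_prop) _ _)]
    apply setIntegral_mono_on (ball_int (by fun_prop) _ _) (ball_int (by fun_prop) _ _)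
      measurableSet_ball
    intro w _
    simp only [hh]
    rcases le_total (P₁ w) (P₂ w) with hl | hl
    · rw [min_eq_left hl, abs_of_nonpos (by linarith)]; linarith
    · rw [min_eq_right hl, abs_of_nonneg (by linarith)]; linarith
  have mono : ∀ (x y : Cn n), (x = x₁ ∨ x = x₂) → (∀ w, h w ≤ PP C (v x) x y w) →
      ∫ w in ball b (ρ / 4), (PP C (v x) x y w - h w) ∂(mu n) ≤
        2 * C * ρ ^ 2 * (mu n).real (ball x (2 * ρ)) := by
    intro x y hx hle
    refine le_trans ?_ (key x y hx)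
    apply setIntegral_mono_set (ball_int ((continuous_PP _ _ _ _).sub hhc) _ _)
    · exact Eventually.of_forall (fun w => by simpa using hle w)
    · exact (hsub x hx).eventuallyLE
  have m1 := mono x₁ y₁ (Or.inl rfl) (fun w => min_le_left _ _)
  have m2 := mono x₂ y₂ (Or.inr rfl) (fun w => min_le_right _ _)
  have v1 : (mu n).real (ball x₁ (2 * ρ)) = 8 ^ (dd n) * (mu n).real (ball b (ρ / 4)) := by
    rw [← real_ball_mul x₁ b (r := 8) (s := ρ / 4) (by norm_num) (by positivity)]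
    congr 2; ring
  have v2 : (mu n).real (ball x₂ (2 * ρ)) = 8 ^ (dd n) * (mu n).real (ball b (ρ / 4)) := by
    rw [← real_ball_mul x₂ b (r := 8) (s := ρ / 4) (by norm_num) (by positivity)]
    congr 2; ring
  rw [v1] at m1
  rw [v2] at m2
  have hpos := real_ball_pos b (s := ρ / 4) (by positivity)
  have fin : C * ‖y₁ - y₂‖ * ρ / 4 * (mu n).real (ball b (ρ / 4)) ≤
      4 * C * ρ ^ 2 * 8 ^ (dd n) * (mu n).real (ball b (ρ / 4)) := by
    calc _ ≤ _ := low
      _ ≤ _ := up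
      _ ≤ _ := add_le_add m1 m2
      _ = _ := by ring
  have fin2 : C * ‖y₁ - y₂‖ * ρ / 4 ≤ 4 * C * ρ ^ 2 * 8 ^ (dd n) := le_of_mul_le_mul_right fin hpos
  have hCρ : 0 < C * ρ / 4 := by positivity
  refine le_of_mul_le_mul_left ?_ hCρ
  calc C * ρ / 4 * ‖y₁ - y₂‖ = C * ‖y₁ - y₂‖ * ρ / 4 := by ring
    _ ≤ _ := fin2
    _ = _ := by ring

end Pool.Agent.Run7.h492.UT
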