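import Pool.Agent.Run7.h492.UT.Contact

/-!
# The sub-mean value property over balls of a plurisubharmonic function, and the set `{φ = -∞}`
-/

set_option autoImplicit false

open MeasureTheory Set Metric Filter Topology

namespace Pool.Agent.Run7.h492.UT

variable {n : ℕ}

/-- The point z + e^{iθ} w on the boundary circle of the complex disc z + D w. -/
noncomputable def circ {n : ℕ} (z w : Cn n) (θ : ℝ) : Cn n :=
  z + Complex.exp ((θ : ℂ) * Complex.I) • w

/-- Plurisubharmonic functions on an open set Ω, with values in [-∞, ∞).  The function is upper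
semicontinuous on Ω and, for every closed complex disc {z + ζ w, |ζ| ≤ 1} contained in Ω, the
value at the centre z is at most the mean over the boundary circle.  The mean of an upper
semicontinuous function is the infimum of the means of its continuous majorants. -/
def IsPSH {n : ℕ} (Ω : Set (Cn n)) (φ : Cn n → EReal) : Prop :=
  (∀ z ∈ Ω, φ z ≠ ⊤) ∧ UpperSemicontinuousOn φ Ω ∧
  ∀ z w : Cn n, (∀ ζ : ℂ, ‖ζ‖ ≤ 1 → z + ζ • w ∈ Ω) →
    ∀ h : ℝ → ℝ, Continuous h → (∀ θ ∈ Icc 0 (2 * Real.pi), φ (circ z w θ) ≤ (h θ : EReal)) →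
      φ z ≤ (((2 * Real.pi)⁻¹ * ∫ θ in (0 : ℝ)..(2 * Real.pi), h θ : ℝ) : EReal)

/-- rotation and translation -/
noncomputable def rotE (x : Cn n) (c : ℂ) (hc : ‖c‖ = 1) : Cn n ≃ᵢ Cn n where
  toFun w := x + c • w
  invFun w := c⁻¹ • (w - x)
  left_inv w := by
    have h0 : c ≠ 0 := by rintro rfl; simp at hc
    show c⁻¹ • (x + c • w - x) = w
    rw [add_sub_cancel_left, smul_smul, inv_mul_cancel₀ h0, one_smul]
  right_inv w := by
    have h0 : c ≠ 0 := by rintro rfl; simp at hc
    show x + c • (c⁻¹ • (w - x)) = w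
    rw [smul_smul, mul_inv_cancel₀ h0, one_smul]; abel
  isometry_toFun := by
    apply Isometry.of_dist_eq
    intro w w'
    rw [dist_eq_norm, dist_eq_norm, add_sub_add_left_eq_sub, ← smul_sub, norm_smul, hc, one_mul]

lemma rot_integral (g : Cn n → ℝ) (x : Cn n) (c : ℂ) (hc : ‖c‖ = 1) (s : ℝ) :
    ∫ w in ball (0 : Cn n) s, g (x + c • w) ∂(mu n) = ∫ w in ball x s, g w ∂(mu n) := by
  have h1 := (IsometryEquiv.measurePreserving_hausdorffMeasure (rotE x c hc) (dd n : ℝ))
  have h2 : MeasurableEmbedding (rotE x c hc) := (rotE x c hc).toHomeomorph.measurableEmbedding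
  have h3 := h1.setIntegral_preimage_emb h2 g (ball x s)
  have h4 : (rotE x c hc) ⁻¹' (ball x s) = ball (0 : Cn n) s := by
    ext w
    simp only [rotE, mem_preimage, mem_ball, dist_eq_norm]
    show ‖x + c • w - x‖ < s ↔ ‖w - 0‖ < s
    rw [add_sub_cancel_left, norm_smul, hc, one_mul, sub_zero]
  rw [h4] at h3
  exact h3

/-- **sub-mean value property over balls** -/
lemma mean_ball {Ω : Set (Cn n)} {φ : Cn n → EReal} (hφ : IsPSH Ω φ) {x : Cn n} {s : ℝ} (hs : 0 < s)
    (hsub : closedBall x s ⊆ Ω) {c : ℝ} (hc : (c : EReal) ≤ φ x) {h : Cn n → ℝ} (hh : Continuous h)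
    (hm : ∀ w ∈ closedBall x s, φ w ≤ (h w : EReal)) :
    c * (mu n).real (ball x s) ≤ ∫ w in ball x s, h w ∂(mu n) := by
  have hpi : (0 : ℝ) < 2 * Real.pi := by positivity
  have hnorm : ∀ θ : ℝ, ‖Complex.exp ((θ : ℂ) * Complex.I)‖ = 1 := fun θ =>
    Complex.norm_exp_ofReal_mul_I θ
  have hcirc : ∀ w ∈ ball (0 : Cn n) s, ∀ θ : ℝ, circ x w θ ∈ closedBall x s := by
    intro w hw θ
    rw [mem_ball_zero_iff] at hw
    rw [mem_closedBall, dist_eq_norm]
    unfold circ
    rw [add_sub_cancel_left, norm_smul, hnorm, one_mul]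
    exact hw.le
  have hpt : ∀ w ∈ ball (0 : Cn n) s, c * (2 * Real.pi) ≤
      ∫ θ in Ioc (0 : ℝ) (2 * Real.pi), h (x + Complex.exp ((θ : ℂ) * Complex.I) • w) := by
    intro w hw
    have h1 := hφ.2.2 x w (by
      intro ζ hζ
      apply hsub
      rw [mem_ball_zero_iff] at hw
      rw [mem_closedBall, dist_eq_norm, add_sub_cancel_left, norm_smul]
      nlinarith [norm_nonneg w, norm_nonneg ζ]) (fun θ => h (circ x w θ))
      (by unfold circ; fun_prop) (fun θ _ => hm _ (hcirc w hw θ))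
    have h2 := hc.trans h1
    rw [EReal.coe_le_coe_iff, intervalIntegral.integral_of_le hpi.le] at h2
    rw [inv_mul_eq_div, le_div_iff₀ hpi] at h2
    exact h2
  -- integrate
  have hcont : Continuous (fun p : Cn n × ℝ => h (x + Complex.exp ((p.2 : ℂ) * Complex.I) • p.1)) := by
    fun_prop
  have hint : Integrable (fun p : Cn n × ℝ => h (x + Complex.exp ((p.2 : ℂ) * Complex.I) • p.1))
      (((mu n).restrict (ball 0 s)).prod ((volume : Measure ℝ).restrict (Ioc 0 (2 * Real.pi)))) := by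
    rw [Measure.prod_restrict]
    apply IntegrableOn.mono_set (t := closedBall (0 : Cn n) s ×ˢ Icc (0 : ℝ) (2 * Real.pi))
    · exact hcont.continuousOn.integrableOn_compact
        ((isCompact_closedBall _ _).prod isCompact_Icc)
    · exact prod_mono ball_subset_closedBall Ioc_subset_Icc_self
  have hswap := integral_integral_swap
    (f := fun (w : Cn n) (θ : ℝ) => h (x + Complex.exp ((θ : ℂ) * Complex.I) • w)) hint
  have hR : ∫ θ in Ioc (0 : ℝ) (2 * Real.pi), ∫ w in ball (0 : Cn n) s,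
      h (x + Complex.exp ((θ : ℂ) * Complex.I) • w) ∂(mu n) =
      2 * Real.pi * ∫ w in ball x s, h w ∂(mu n) := by
    simp_rw [fun θ : ℝ => rot_integral h x _ (hnorm θ) s]
    rw [setIntegral_const, smul_eq_mul]
    congr 1
    rw [Real.volume_real_Ioc_of_le hpi.le, sub_zero]
  rw [hR] at hswap
  have hL : (mu n).real (ball (0 : Cn n) s) * (c * (2 * Real.pi)) ≤ ∫ w in ball (0 : Cn n) s,
      (∫ θ in Ioc (0 : ℝ) (2 * Real.pi), h (x + Complex.exp ((θ : ℂ) * Complex.I) • w)) ∂(mu n) := by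
    rw [← smul_eq_mul, ← setIntegral_const]
    apply setIntegral_mono_on _ _ measurableSet_ball hpt
    · exact integrableOn_const measure_ball_lt_top.ne
    · exact hint.integral_prod_left
  rw [hswap] at hL
  have hvol : (mu n).real (ball (0 : Cn n) s) = (mu n).real (ball x s) := by
    rw [Measure.real, Measure.real, Measure.addHaar_ball_center (mu n) x s]
  rw [hvol] at hL
  have : 2 * Real.pi * (c * (mu n).real (ball x s)) ≤ 2 * Real.pi * ∫ w in ball x s, h w ∂(mu n) := by
    linarith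
  exact le_of_mul_le_mul_left this hpi

/-- upper bound on a compact ball -/
lemma bdd_ball {Ω : Set (Cn n)} {φ : Cn n → EReal} (hφ : IsPSH Ω φ) {x : Cn n} {s : ℝ} (hs : 0 < s)
    (hsub : closedBall x s ⊆ Ω) : ∃ S : ℝ, ∀ w ∈ closedBall x s, φ w ≤ (S : EReal) := by
  obtain ⟨m, hm, hmax⟩ := (hφ.2.1.mono hsub).exists_isMaxOn ⟨x, mem_closedBall_self hs.le⟩
    (isCompact_closedBall x s)
  have h1 : φ m ≠ ⊤ := hφ.1 m (hsub hm)
  refine ⟨(φ m).toReal, fun w hw => (hmax hw).trans (EReal.le_coe_toReal h1)⟩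

lemma isOpen_lt {Ω : Set (Cn n)} (hΩ : IsOpen Ω) {φ : Cn n → EReal} (hφ : IsPSH Ω φ) (t : EReal) :
    IsOpen {w | w ∈ Ω ∧ φ w < t} := by
  rw [isOpen_iff_mem_nhds]
  rintro w ⟨hw, hwt⟩
  have h1 := hφ.2.1 w hw t hwt
  rw [hΩ.nhdsWithin_eq hw] at h1
  filter_upwards [h1, hΩ.mem_nhds hw] with z hz hz'
  exact ⟨hz', hz⟩

lemma measurableSet_bot {Ω : Set (Cn n)} (hΩ : IsOpen Ω) {φ : Cn n → EReal} (hφ : IsPSH Ω φ) :
    MeasurableSet {w | w ∈ Ω ∧ φ w = ⊥} := by
  have : {w | w ∈ Ω ∧ φ w = ⊥} = ⋂ k : ℕ, {w | w ∈ Ω ∧ φ w < ((-(k : ℝ) : ℝ) : EReal)} := by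
    ext w
    simp only [mem_iInter, Set.mem_ofPred_eq]
    constructor
    · rintro ⟨h1, h2⟩ k
      refine ⟨h1, ?_⟩
      rw [h2]; exact EReal.bot_lt_coe _
    · intro h
      refine ⟨(h 0).1, ?_⟩
      rw [EReal.eq_bot_iff_forall_lt]
      intro y
      obtain ⟨k, hk⟩ := exists_nat_gt (-y)
      refine (h k).2.trans_le ?_
      rw [EReal.coe_le_coe_iff]; linarith
  rw [this]
  exact MeasurableSet.iInter fun k => (isOpen_lt hΩ hφ _).measurableSet

/-- the set `{φ = -∞}` near a point where `φ` is finite -/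
lemma null_near {Ω : Set (Cn n)} (hΩ : IsOpen Ω) {φ : Cn n → EReal} (hφ : IsPSH Ω φ) {x : Cn n}
    {s : ℝ} (hs : 0 < s) (hsub : closedBall x s ⊆ Ω) (hx : φ x ≠ ⊥) :
    mu n (ball x s ∩ {w | w ∈ Ω ∧ φ w = ⊥}) = 0 := by
  by_contra hcon
  obtain ⟨F, hFsub, hFc, hF0⟩ := (measurableSet_ball.inter (measurableSet_bot hΩ hφ)).exists_lt_isCompact
    (pos_iff_ne_zero.2 hcon)
  obtain ⟨S, hS⟩ := bdd_ball hφ hs hsub
  set c := (φ x).toReal with hc
  have hcx : (c : EReal) ≤ φ x := by
    rw [hc, EReal.coe_toReal (hφ.1 x (hsub (mem_closedBall_self hs.le))) hx]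
  set m := (mu n).real F with hm
  have hm0 : 0 < m := by
    rw [hm, Measure.real, ENNReal.toReal_pos_iff]
    exact ⟨hF0, hFc.measure_lt_top⟩
  set B := (mu n).real (ball x s) with hB
  have hB0 : 0 < B := real_ball_pos x hs
  -- the choice of t
  obtain ⟨t, ht0, ht⟩ : ∃ t : ℝ, 0 ≤ S + t ∧ S * B - (S + t) * m < c * B := by
    refine ⟨|S| + (|S - c| * B + 1) / m, ?_, ?_⟩
    · have : 0 ≤ (|S - c| * B + 1) / m := by positivity
      linarith [neg_abs_le S]
    · have h1 : (|S - c| * B + 1) / m * m = |S - c| * B + 1 := by field_simp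
      have h2 : 0 ≤ (S + |S|) * m := by
        have := neg_abs_le S
        apply mul_nonneg _ hm0.le
        linarith
      have h3 : (S - c) * B ≤ |S - c| * B := by
        gcongr; exact le_abs_self _
      nlinarith
  -- the majorant
  have hU : IsOpen {w | w ∈ Ω ∧ φ w < ((-t : ℝ) : EReal)} := isOpen_lt hΩ hφ _
  obtain ⟨g, hg0, hg1, hg⟩ := exists_continuous_zero_one_of_isClosed hU.isClosed_compl hFc.isClosed
    (by
      rw [Set.disjoint_left]
      intro w hw hwF
      apply hw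
      obtain ⟨h1, h2, h3⟩ := hFsub hwF
      exact ⟨h2, by rw [h3]; exact EReal.bot_lt_coe _⟩)
  have hmaj : ∀ w ∈ closedBall x s, φ w ≤ ((S - (S + t) * g w : ℝ) : EReal) := by
    intro w hw
    by_cases hwU : w ∈ {w | w ∈ Ω ∧ φ w < ((-t : ℝ) : EReal)}
    · refine hwU.2.le.trans ?_
      rw [EReal.coe_le_coe_iff]
      nlinarith [(hg w).2]
    · rw [hg0 hwU]
      simpa using hS w hw
  have hmean := mean_ball hφ hs hsub hcx (h := fun w => S - (S + t) * g w) (by fun_prop) hmaj
  have hgc : Continuous g := g.continuous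
  rw [integral_sub (ball_int continuous_const x s) (ball_int (by fun_prop) x s), setIntegral_const,
    integral_const_mul, smul_eq_mul] at hmean
  have hgF : m ≤ ∫ w in ball x s, g w ∂(mu n) := by
    have h1 : ∫ w in F, g w ∂(mu n) ≤ ∫ w in ball x s, g w ∂(mu n) := by
      apply setIntegral_mono_set (ball_int hgc x s)
      · exact Eventually.of_forall fun w => (hg w).1
      · exact Eventually.of_forall (fun w hw => (hFsub hw).1)
    have h2 : ∫ w in F, g w ∂(mu n) = m := by
      rw [setIntegral_congr_fun hFc.measurableSet (g := fun _ => (1 : ℝ)) (fun w hw => hg1 hw),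
        setIntegral_const, smul_eq_mul, mul_one]
    linarith
  have : (S + t) * m ≤ (S + t) * ∫ w in ball x s, g w ∂(mu n) := by gcongr
  nlinarith

/-- **`{φ = -∞}` is a null set** -/
theorem null_bot {Ω : Set (Cn n)} (hΩ : IsOpen Ω) (hconn : IsPreconnected Ω) {φ : Cn n → EReal}
    (hφ : IsPSH Ω φ) (hne : ∃ z ∈ Ω, φ z ≠ ⊥) : mu n {w | w ∈ Ω ∧ φ w = ⊥} = 0 := by
  set Z : Set (Cn n) := {w | w ∈ Ω ∧ φ w = ⊥} with hZ
  set A : Set (Cn n) := {x | ∃ ε > 0, mu n (ball x ε ∩ Z) = 0} with hA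
  have hAo : IsOpen A := by
    rw [Metric.isOpen_iff]
    rintro x ⟨ε, hε, h0⟩
    refine ⟨ε / 2, by positivity, ?_⟩
    intro y hy
    refine ⟨ε / 2, by positivity, ?_⟩
    apply measure_mono_null _ h0
    apply inter_subset_inter_left
    apply ball_subset_ball'
    rw [mem_ball] at hy
    linarith
  -- relatively closed
  have hAc : ∀ x ∈ Ω, x ∈ closure A → x ∈ A := by
    intro x hx hxA
    obtain ⟨ρ, hρ, hρs⟩ := Metric.isOpen_iff.1 hΩ x hx
    set s := ρ / 3 with hs
    have hs0 : 0 < s := by positivity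
    obtain ⟨a, haA, had⟩ := Metric.mem_closure_iff.1 hxA (s / 2) (by positivity)
    obtain ⟨ε, hε, h0⟩ := haA
    -- a point a' near a with φ a' finite
    have hpos : 0 < mu n (ball a (min ε (s / 2))) := measure_ball_pos _ _ (by positivity)
    obtain ⟨a', ha', ha'Z⟩ : ∃ a' ∈ ball a (min ε (s / 2)), a' ∉ Z := by
      by_contra hcon
      push Not at hcon
      have : ball a (min ε (s / 2)) ⊆ ball a ε ∩ Z := fun y hy =>
        ⟨ball_subset_ball (min_le_left _ _) hy, hcon y hy⟩
      exact hpos.ne' (measure_mono_null this h0)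
    have hxa' : dist x a' < s := by
      have h1 : dist a' a < s / 2 := lt_of_lt_of_le (mem_ball.1 ha') (min_le_right _ _)
      calc dist x a' ≤ dist x a + dist a a' := dist_triangle _ _ _
        _ < s / 2 + s / 2 := by
          rw [dist_comm a a']; exact add_lt_add had h1
        _ = s := by ring
    have hcb : closedBall a' s ⊆ Ω := by
      intro y hy
      apply hρs
      rw [mem_closedBall] at hy
      rw [mem_ball]
      calc dist y x ≤ dist y a' + dist a' x := dist_triangle _ _ _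
        _ < s + s := by
          rw [dist_comm a' x]
          exact add_lt_add_of_le_of_lt hy hxa'
        _ < ρ := by rw [hs]; linarith
    have ha'Ω : a' ∈ Ω := hcb (mem_closedBall_self hs0.le)
    have hn := null_near hΩ hφ hs0 hcb (fun h => ha'Z ⟨ha'Ω, h⟩)
    refine ⟨s - dist x a', by linarith, ?_⟩
    apply measure_mono_null _ hn
    apply inter_subset_inter_left
    apply ball_subset_ball'
    linarith
  have hΩA : Ω ⊆ A := by
    apply hconn.subset_of_closure_inter_subset hAo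
    · obtain ⟨z, hz, hzb⟩ := hne
      obtain ⟨ρ, hρ, hρs⟩ := Metric.isOpen_iff.1 hΩ z hz
      refine ⟨z, hz, ρ / 2, by positivity, ?_⟩
      apply null_near hΩ hφ (by positivity) _ hzb
      exact (closedBall_subset_ball (by linarith)).trans hρs
    · rintro x ⟨hx1, hx2⟩
      exact hAc x hx2 hx1
  apply measure_null_of_locally_null
  rintro x ⟨hx, _⟩
  obtain ⟨ε, hε, h0⟩ := hΩA hx
  refine ⟨ball x ε ∩ Z, ?_, h0⟩
  rw [inter_comm]
  exact inter_mem_nhdsWithin _ (ball_mem_nhds _ hε)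

end Pool.Agent.Run7.h492.UT
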